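import Mathlib
import Pool.Agent.Lib.MP_fb72b7_co.Defs
import Pool.Agent.Lib.MP_fb72b7_co.Game

namespace Pool.Agent.Results.MP_fb72b7_co.NoKnotWins

open Pool.Agent.Lib.MP_fb72b7_co

/-- On every box `a × b × c` the no-knot player has a winning strategy in Ulam's knot game, moving
first or second, and the knot player has none. -/
theorem result (a b c : ℕ) (ha : 1 ≤ a) (hb : 1 ≤ b) (hc : 1 ≤ c) :
    (FirstWins ![a, b, c] Unknotted ∧ ¬ SecondWins ![a, b, c] Knotted) ∧
      (SecondWins ![a, b, c] Unknotted ∧ ¬ FirstWins ![a, b, c] Knotted) := by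
  have hn : ∀ m, 1 ≤ (![a, b, c] : Fin 3 → ℕ) m := by
    intro m
    fin_cases m
    · exact ha
    · exact hb
    · exact hc
  have h1 := first_wins _ hn
  have h2 := second_wins _ hn
  exact ⟨⟨h1, fun h => not_first_second (fun _ x y => y x) h1 h⟩,
    ⟨h2, fun h => not_first_second (fun _ x y => x y) h h2⟩⟩

end Pool.Agent.Results.MP_fb72b7_co.NoKnotWins
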